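import Pool.Agent.MP_670f9a_nt.H13.Spec2

/-! Fourier coefficients of the logarithm of a polynomial on the unit circle. -/

namespace Pool.Agent.MP_670f9a_nt.H51

open Polynomial Real MeasureTheory Filter Topology Pool.Agent.MP_670f9a_nt.NP
open scoped ComplexConjugate Interval

/-- The point of the unit circle. -/
noncomputable abbrev cm (θ : ℝ) : ℂ := circleMap 0 1 θ

theorem norm_cm (θ : ℝ) : ‖cm θ‖ = 1 := by simp

theorem cm_ne (θ : ℝ) : cm θ ≠ 0 := circleMap_ne_center one_ne_zero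

theorem conj_cm (θ : ℝ) : conj (cm θ) = (cm θ)⁻¹ := by
  rw [Complex.inv_eq_conj (norm_cm θ)]

theorem cont_cm : Continuous cm := continuous_circleMap 0 1

theorem ae_ne (z : ℂ) : ∀ᵐ θ : ℝ, cm θ ≠ z :=
  ((Set.countable_singleton z).preimage_circleMap 0 one_ne_zero).ae_notMem _

theorem int_zpow (k : ℤ) : ∫ θ in (0 : ℝ)..2 * π, cm θ ^ k = if k = 0 then (2 * π : ℂ) else 0 := by
  split_ifs with h
  · subst h; simp
  · have e : ∀ θ : ℝ, cm θ ^ k = Complex.exp (k * Complex.I * θ) := fun θ => by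
      rw [cm, circleMap_zero, Complex.ofReal_one, one_mul, ← Complex.exp_int_mul]
      congr 1; ring
    simp only [e]
    rw [integral_exp_mul_complex (mul_ne_zero (by exact_mod_cast h) Complex.I_ne_zero)]
    have : (k : ℂ) * Complex.I * (2 * π : ℝ) = k * (2 * π * Complex.I) := by push_cast; ring
    rw [this, Complex.exp_int_mul_two_pi_mul_I]
    simp

/-- The integral behind the Fourier coefficient. -/
noncomputable def J (g : ℝ → ℝ) (r : ℕ) : ℂ := ∫ θ in (0 : ℝ)..2 * π, (g θ : ℂ) * cm θ ^ r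

theorem J_const (c : ℝ) {r : ℕ} (hr : 1 ≤ r) : J (fun _ => c) r = 0 := by
  have := int_zpow r
  rw [if_neg (by omega)] at this
  simp only [zpow_natCast] at this
  rw [J, intervalIntegral.integral_const_mul, this, mul_zero]

theorem J_int {g : ℝ → ℝ} (hg : IntervalIntegrable g volume 0 (2 * π)) (r : ℕ) :
    IntervalIntegrable (fun θ => (g θ : ℂ) * cm θ ^ r) volume 0 (2 * π) :=
  IntervalIntegrable.mul_continuousOn ⟨hg.1.ofReal, hg.2.ofReal⟩ (cont_cm.pow r).continuousOn

theorem J_add {g f h : ℝ → ℝ} (hf : IntervalIntegrable f volume 0 (2 * π))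
    (hh : IntervalIntegrable h volume 0 (2 * π))
    (e : ∀ᵐ θ : ℝ, g θ = f θ + h θ) (r : ℕ) : J g r = J f r + J h r := by
  rw [J, J, J, ← intervalIntegral.integral_add (J_int hf r) (J_int hh r)]
  refine intervalIntegral.integral_congr_ae ?_
  filter_upwards [e] with θ hθ _
  rw [hθ]; push_cast; ring

theorem int_poly (p : ℂ[X]) :
    IntervalIntegrable (fun θ => log ‖p.eval (cm θ)‖) volume 0 (2 * π) :=
  intervalIntegrable_mahlerMeasure p

theorem int_one (s : ℂ) : IntervalIntegrable (fun θ => log ‖1 - s * cm θ‖) volume 0 (2 * π) := by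
  have e : ∀ θ, 1 - s * cm θ = (1 - C s * X : ℂ[X]).eval (cm θ) := fun θ => by simp
  exact (funext fun θ => by rw [e] :
    (fun θ => log ‖1 - s * cm θ‖) = fun θ => log ‖(1 - C s * X : ℂ[X]).eval (cm θ)‖) ▸ int_poly _

theorem int_lin (b : ℂ) : IntervalIntegrable (fun θ => log ‖cm θ - b‖) volume 0 (2 * π) := by
  have e : ∀ θ, cm θ - b = (X - C b : ℂ[X]).eval (cm θ) := fun θ => by simp
  exact (funext fun θ => by rw [e] :
    (fun θ => log ‖cm θ - b‖) = fun θ => log ‖(X - C b : ℂ[X]).eval (cm θ)‖) ▸ int_poly _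

theorem cont_z (c : ℂ) (k : ℤ) : Continuous fun θ => c * cm θ ^ k :=
  continuous_const.mul (cont_cm.zpow₀ _ fun θ => Or.inl (cm_ne θ))

theorem J_open {t : ℂ} (ht : ‖t‖ < 1) {r : ℕ} (hr : 1 ≤ r) :
    J (fun θ => log ‖1 - conj t * cm θ‖) r = -(π : ℂ) * t ^ r / r := by
  have key := intervalIntegral.hasSum_integral_of_dominated_convergence (μ := volume) (a := 0)
    (b := 2 * π) (f := fun θ => ((log ‖1 - conj t * cm θ‖ : ℝ) : ℂ) * cm θ ^ r)
    (F := fun (n : ℕ) θ => -(conj t ^ n / (2 * n)) * cm θ ^ ((r : ℤ) + n)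
      - t ^ n / (2 * n) * cm θ ^ ((r : ℤ) - n)) (fun n _ => ‖t‖ ^ n)
    (fun n => Continuous.aestronglyMeasurable
      ((cont_z _ _).sub (cont_z _ _)))
    (fun n => ae_of_all _ fun θ _ => by
      refine (norm_sub_le _ _).trans ?_
      simp only [norm_mul, norm_neg, norm_div, norm_pow, norm_zpow, norm_cm, one_zpow, mul_one,
        Complex.norm_conj, Complex.norm_ofNat, Complex.norm_natCast]
      rcases Nat.eq_zero_or_pos n with rfl | hn
      · simp
      · have h1 : (1 : ℝ) ≤ n := by exact_mod_cast hn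
        have h2 : ‖t‖ ^ n / (2 * n) ≤ ‖t‖ ^ n / 2 := by gcongr; linarith
        linarith)
    (ae_of_all _ fun _ _ => summable_geometric_of_lt_one (norm_nonneg _) ht)
    intervalIntegrable_const
    (ae_of_all _ fun θ _ => by
      have hz : ‖conj t * cm θ‖ < 1 := by rwa [norm_mul, norm_cm, mul_one, Complex.norm_conj]
      have h1 := Complex.hasSum_taylorSeries_neg_log hz
      have h2 := (h1.add (Complex.hasSum_conj'.2 h1)).mul_left (-(cm θ ^ r) / 2)
      have e : -(cm θ ^ r) / 2 * (-Complex.log (1 - conj t * cm θ) +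
          conj (-Complex.log (1 - conj t * cm θ))) =
          ((log ‖1 - conj t * cm θ‖ : ℝ) : ℂ) * cm θ ^ r := by
        rw [Complex.add_conj, Complex.neg_re, Complex.log_re]; push_cast; ring
      rw [e] at h2
      refine (congrArg (HasSum · _) (funext fun n => ?_)).mp h2
      have h0 := cm_ne θ
      rw [map_div₀, map_pow, map_mul, Complex.conj_conj, conj_cm, map_natCast, zpow_add₀ h0,
        zpow_sub₀ h0, zpow_natCast, zpow_natCast, mul_pow, mul_pow, inv_pow]
      ring)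
  have e : ∀ n : ℕ, (∫ θ in (0 : ℝ)..2 * π, (-(conj t ^ n / (2 * n)) * cm θ ^ ((r : ℤ) + n)
      - t ^ n / (2 * n) * cm θ ^ ((r : ℤ) - n))) =
      if n = r then -(π : ℂ) * t ^ r / r else 0 := by
    intro n
    rw [intervalIntegral.integral_sub
      ((cont_z _ _).intervalIntegrable _ _) ((cont_z _ _).intervalIntegrable _ _),
      intervalIntegral.integral_const_mul, intervalIntegral.integral_const_mul, int_zpow, int_zpow,
      if_neg (by omega)]
    by_cases h : n = r
    · subst h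
      rw [if_pos (by omega), if_pos rfl]; ring
    · rw [if_neg (by omega), if_neg h]; ring
  simp only [e] at key
  exact key.unique (hasSum_ite_eq r _)

theorem half_le {z : ℂ} (hz : ‖z‖ ≤ 1) {ρ : ℝ} (h0 : 0 ≤ ρ) (h1 : ρ ≤ 1) :
    ‖1 - z‖ ≤ 2 * ‖1 - ρ * z‖ := by
  have e : 1 - z = (1 - ρ * z) - ((1 - ρ : ℝ) : ℂ) * z := by push_cast; ring
  have h2 : ‖((1 - ρ : ℝ) : ℂ) * z‖ ≤ 1 - ρ := by
    rw [norm_mul, Complex.norm_real, Real.norm_of_nonneg (by linarith)]
    exact mul_le_of_le_one_right (by linarith) hz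
  have h3 : ‖(ρ : ℂ) * z‖ ≤ ρ := by
    rw [norm_mul, Complex.norm_real, Real.norm_of_nonneg h0]
    exact mul_le_of_le_one_right h0 hz
  have h4 := norm_sub_norm_le (1 : ℂ) (ρ * z)
  rw [norm_one] at h4
  have h5 := norm_sub_le (1 - ρ * z) (((1 - ρ : ℝ) : ℂ) * z)
  rw [← e] at h5
  linarith

theorem J_closed {t : ℂ} (ht : ‖t‖ ≤ 1) {r : ℕ} (hr : 1 ≤ r) :
    J (fun θ => log ‖1 - conj t * cm θ‖) r = -(π : ℂ) * t ^ r / r := by
  have hne : ∀ᵐ θ : ℝ, 1 - conj t * cm θ ≠ 0 := by
    filter_upwards [ae_ne (conj t)⁻¹] with θ hθ h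
    exact hθ (eq_inv_of_mul_eq_one_right (sub_eq_zero.1 h).symm)
  have hI : ∀ᶠ ρ : ℝ in 𝓝[<] 1, ρ ∈ Set.Ioo (0 : ℝ) 1 := Ioo_mem_nhdsLT one_pos
  have key := intervalIntegral.tendsto_integral_filter_of_dominated_convergence (μ := volume)
    (a := 0) (b := 2 * π) (l := 𝓝[<] (1 : ℝ))
    (f := fun θ => ((log ‖1 - conj t * cm θ‖ : ℝ) : ℂ) * cm θ ^ r)
    (F := fun ρ θ => ((log ‖1 - conj (ρ * t : ℂ) * cm θ‖ : ℝ) : ℂ) * cm θ ^ r)
    (fun θ => |log ‖1 - conj t * cm θ‖| + log 2)
    (Eventually.of_forall fun ρ =>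
      (intervalIntegrable_iff.1 (J_int (int_one (conj (ρ * t : ℂ))) r)).aestronglyMeasurable)
    (hI.mono fun ρ hρ => by
      filter_upwards [hne] with θ hθ _
      have hz : ‖conj t * cm θ‖ ≤ 1 := by rwa [norm_mul, norm_cm, mul_one, Complex.norm_conj]
      have h1 := half_le hz hρ.1.le hρ.2.le
      have h2 := norm_pos_iff.2 hθ
      have h3 : ‖1 - ρ * (conj t * cm θ)‖ ≤ 2 := by
        refine (norm_sub_le _ _).trans ?_
        rw [norm_one, norm_mul, Complex.norm_real, Real.norm_of_nonneg hρ.1.le]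
        nlinarith [hρ.1, hρ.2, norm_nonneg (conj t * cm θ)]
      have h4 := log_le_log h2 h1
      have h5 : 0 < ‖1 - ρ * (conj t * cm θ)‖ := by linarith
      rw [log_mul two_ne_zero h5.ne'] at h4
      have h6 := log_le_log h5 h3
      rw [norm_mul, norm_pow, norm_cm, one_pow, mul_one, Complex.norm_real, map_mul,
        Complex.conj_ofReal, mul_assoc, Real.norm_eq_abs, abs_le]
      constructor
      · linarith [neg_abs_le (log ‖1 - conj t * cm θ‖)]
      · linarith [abs_nonneg (log ‖1 - conj t * cm θ‖)])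
    ((int_one _).abs.add intervalIntegrable_const)
    (by
      filter_upwards [hne] with θ hθ _
      have hc : ContinuousAt
          (fun ρ : ℝ => ((log ‖1 - conj (ρ * t : ℂ) * cm θ‖ : ℝ) : ℂ) * cm θ ^ r) 1 := by
        refine ContinuousAt.mul (Complex.continuous_ofReal.continuousAt.comp
          (ContinuousAt.log (by fun_prop) ?_)) continuousAt_const
        simpa using hθ
      simpa using hc.tendsto.mono_left nhdsWithin_le_nhds)
  have k2 : Tendsto (fun ρ : ℝ => -(π : ℂ) * (ρ * t) ^ r / r) (𝓝[<] 1)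
      (𝓝 (-(π : ℂ) * t ^ r / r)) := by
    have hc : Continuous fun ρ : ℝ => -(π : ℂ) * (ρ * t) ^ r / r := by fun_prop
    simpa using (hc.tendsto 1).mono_left nhdsWithin_le_nhds
  refine tendsto_nhds_unique key (k2.congr' (hI.mono fun ρ hρ => (J_open ?_ hr).symm))
  rw [norm_mul, Complex.norm_real, Real.norm_of_nonneg hρ.1.le]
  nlinarith [hρ.1, hρ.2, norm_nonneg t]

theorem J_lin (b : ℂ) {r : ℕ} (hr : 1 ≤ r) :
    J (fun θ => log ‖cm θ - b‖) r = -(π : ℂ) * sharp b ^ r / r := by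
  unfold sharp
  split_ifs with h
  · rw [← J_closed h hr]
    refine intervalIntegral.integral_congr fun θ _ => ?_
    have e : 1 - conj b * cm θ = cm θ * conj (cm θ - b) := by
      rw [map_sub, conj_cm, mul_sub, mul_inv_cancel₀ (cm_ne θ), mul_comm]
    simp only [e, norm_mul, norm_cm, one_mul, Complex.norm_conj]
  · have h1 : 1 < ‖b‖ := not_le.1 h
    have hb : b ≠ 0 := norm_pos_iff.1 (by linarith)
    have h2 : ‖(conj b)⁻¹‖ < 1 := by
      rw [norm_inv, Complex.norm_conj]; exact inv_lt_one_of_one_lt₀ h1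
    rw [← J_open h2 hr, J_add (f := fun _ => log ‖b‖)
      intervalIntegrable_const (int_one (conj (conj b)⁻¹)) ?_,
      J_const _ hr, zero_add]
    filter_upwards [ae_ne b] with θ hθ
    have e : cm θ - b = -b * (1 - conj (conj b)⁻¹ * cm θ) := by
      rw [map_inv₀, Complex.conj_conj]; field_simp; ring
    have h3 : 1 - conj (conj b)⁻¹ * cm θ ≠ 0 := fun h0 =>
      hθ (sub_eq_zero.1 (by rw [e, h0, mul_zero]))
    rw [e, norm_mul, norm_neg, log_mul (norm_ne_zero_iff.2 hb) (norm_ne_zero_iff.2 h3)]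

theorem J_prod {a : ℂ} (ha : a ≠ 0) {r : ℕ} (hr : 1 ≤ r) (s : Multiset ℂ) :
    (∀ᵐ θ : ℝ, (C a * (s.map fun b => X - C b).prod).eval (cm θ) ≠ 0) ∧
    J (fun θ => log ‖(C a * (s.map fun b => X - C b).prod).eval (cm θ)‖) r =
      -(π : ℂ) * (s.map fun b => sharp b ^ r).sum / r := by
  induction s using Multiset.induction_on with
  | empty => simpa [ha] using J_const (log ‖a‖) hr
  | cons b s ih =>
    have e : ∀ u : ℂ, (C a * ((b ::ₘ s).map fun b => X - C b).prod).eval u =
        (u - b) * (C a * (s.map fun b => X - C b).prod).eval u := fun u => by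
      simp only [Multiset.map_cons, Multiset.prod_cons, eval_mul, eval_sub, eval_X, eval_C]
      ring
    refine ⟨?_, ?_⟩
    · filter_upwards [ih.1, ae_ne b] with θ h1 h2
      rw [e]; exact mul_ne_zero (sub_ne_zero.2 h2) h1
    · rw [J_add (int_lin b) (int_poly (C a * (s.map fun b => X - C b).prod)) ?_,
        J_lin b hr, ih.2, Multiset.map_cons, Multiset.sum_cons]
      · ring
      · filter_upwards [ih.1, ae_ne b] with θ h1 h2
        rw [e, norm_mul, log_mul (norm_ne_zero_iff.2 (sub_ne_zero.2 h2)) (norm_ne_zero_iff.2 h1)]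

theorem sFC : SFC := by
  intro p r hp hr
  have h := (J_prod (leadingCoeff_ne_zero.2 hp) hr p.roots).2
  rw [← (IsAlgClosed.splits p).eq_prod_roots] at h
  have hπ : (π : ℂ) ≠ 0 := by exact_mod_cast pi_ne_zero
  have hr' : (r : ℂ) ≠ 0 := by exact_mod_cast (by omega : r ≠ 0)
  change (2 * π)⁻¹ • J (fun θ => log ‖p.eval (cm θ)‖) r = _
  rw [h, ps, Complex.real_smul]
  push_cast
  field_simp

end Pool.Agent.MP_670f9a_nt.H51
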